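import Pool.Agent.Q157.PT.Induced

namespace Pool.Agent.Results.MP_0f5321_co.WinningTeamsFinite

open Pool.Agent.Q157.PT

/-- every team of finite polyominoes that is a winner of the weak set `(1,2)`-achievement game
has only finitely many elements -/
theorem result (T : Set Polyomino) (hteam : IsTeam T) (hwin : IsWinner T) : T.Finite :=
  winner_finite T hteam hwin

end Pool.Agent.Results.MP_0f5321_co.WinningTeamsFinite
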